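import Pool.Agent.R699.ConjForw

/-!
MP_3f621b_al: c-conjugacy and p-conjugacy in the symmetric inverse monoid `I(X)`, for every set `X`
(in particular for every uncountable `X`).

`I(X)` is the type `X ≃. X` of partial injections with product `PEquiv.trans` (maps composed from
left to right), zero `⊥` and identity `PEquiv.refl X`.
-/

open Cardinal

namespace Pool.Agent.Results.MP_3f621b_al.Settled

open Pool.R699.Conj

universe u
variable {X : Type u}

/-- p-conjugacy in `I(X)`. -/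
def PConj (α β : X ≃. X) : Prop := ∃ u v : X ≃. X, α = u.trans v ∧ β = v.trans u

/-- The set `ℙ(α)`: `{0}` if `α = 0`, and otherwise all `g` with `(mα)g ≠ 0` whenever `mα ≠ 0`. -/
def PP (α : X ≃. X) : Set (X ≃. X) :=
  {g | (α = ⊥ → g = ⊥) ∧ (α ≠ ⊥ → ∀ m : X ≃. X, m.trans α ≠ ⊥ → (m.trans α).trans g ≠ ⊥)}

/-- The set `ℙ¹(α) = ℙ(α) ∪ {1}`. -/
def PP1 (α : X ≃. X) : Set (X ≃. X) := PP α ∪ {PEquiv.refl X}

/-- c-conjugacy in `I(X)`. -/
def CConj (α β : X ≃. X) : Prop :=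
  ∃ g ∈ PP1 α, ∃ h ∈ PP1 β, α.trans g = g.trans β ∧ β.trans h = h.trans α

theorem PP1_im {α g : X ≃. X} (hα : α ≠ ⊥) (hg : g ∈ PP1 α) :
    ∀ x ∈ im α 1, ∃ y, g x = some y := by
  intro x hx
  rcases hg with hg | hg
  · obtain ⟨z, hz⟩ := mem_im1.1 hx
    by_contra hcon
    push Not at hcon
    classical
    have h1 : (PEquiv.single z z).trans α ≠ ⊥ := by
      intro h0
      have h2 : ((PEquiv.single z z).trans α) z = some x :=
        (PEquiv.trans_eq_some _ _ _ _).2 ⟨z, PEquiv.single_apply z z, hz⟩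
      rw [h0] at h2
      simp at h2
    apply hg.2 hα _ h1
    apply PEquiv.ext
    intro w
    rw [PEquiv.bot_apply]
    cases h3 : (((PEquiv.single z z).trans α).trans g) w with
    | none => rfl
    | some y =>
      exfalso
      obtain ⟨x', h4, h5⟩ := (PEquiv.trans_eq_some _ _ _ _).1 h3
      obtain ⟨z', h6, h7⟩ := (PEquiv.trans_eq_some _ _ _ _).1 h4
      have h8 := (PEquiv.mem_single_iff _ _ _ _).1 (Option.mem_def.2 h6)
      rw [h8.2] at h7
      rw [← pfun α hz h7] at h5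
      exact hcon y h5
  · rw [Set.mem_singleton_iff] at hg
    rw [hg]
    exact ⟨x, PEquiv.refl_apply x⟩

theorem zero_of_zero {α β h : X ≃. X} (hα : α = ⊥) (hi : ∀ y ∈ im β 1, ∃ w, h y = some w)
    (hh : β.trans h = h.trans α) : β = ⊥ := by
  apply PEquiv.ext
  intro y
  rw [PEquiv.bot_apply]
  cases h1 : β y with
  | none => rfl
  | some y' =>
    exfalso
    obtain ⟨w, hw⟩ := hi y' (mem_im1.2 ⟨y, h1⟩)
    have h2 : (β.trans h) y = some w := (PEquiv.trans_eq_some _ _ _ _).2 ⟨y', h1, hw⟩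
    rw [hh, hα, PEquiv.trans_bot] at h2
    simp at h2

theorem c_le {α β g : X ≃. X} (hα : α ≠ ⊥) (hg : g ∈ PP1 α) (h : α.trans g = g.trans β) :
    (∀ n, #(cyc α n) ≤ #(cyc β n)) ∧ #(rray α) + #(cyc α 0) ≤ #(rray β) + #(cyc β 0) ∧
    #(lray α) ≤ #(lray β) ∧
    ∀ k, 1 ≤ k → #(im α k \ dm α 1 : Set X) ≤ #(im β k \ dm β 1 : Set X) := by
  have hi := PP1_im hα hg
  refine c_forw h ?_ hi
  intro x hx
  obtain ⟨x', hx'⟩ := mem_dm1.1 hx
  obtain ⟨y', hy'⟩ := hi x' (mem_im1.2 ⟨x, hx'⟩)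
  have h2 : (α.trans g) x = some y' := (PEquiv.trans_eq_some _ _ _ _).2 ⟨x', hx', hy'⟩
  rw [h, PEquiv.trans_eq_some] at h2
  obtain ⟨y, hy, -⟩ := h2
  exact ⟨y, hy⟩

theorem refl_mem (α : X ≃. X) : PEquiv.refl X ∈ PP1 α := Or.inr rfl

theorem c_iff (α β : X ≃. X) : CConj α β ↔
    (∀ n, #(cyc α n) = #(cyc β n)) ∧
    #(rray α) + #(cyc α 0) = #(rray β) + #(cyc β 0) ∧
    #(lray α) = #(lray β) ∧
    ∀ k, 1 ≤ k → #(im α k \ dm α 1 : Set X) = #(im β k \ dm β 1 : Set X) := by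
  constructor
  · rintro ⟨g, hg, h, hh, h1, h2⟩
    by_cases hα : α = ⊥
    · by_cases hβ : β = ⊥
      · rw [hα, hβ]; simp
      · exact absurd (zero_of_zero hα (PP1_im hβ hh) h2) hβ
    · by_cases hβ : β = ⊥
      · exact absurd (zero_of_zero hβ (PP1_im hα hg) h1) hα
      · obtain ⟨a1, a2, a3, a4⟩ := c_le hα hg h1
        obtain ⟨b1, b2, b3, b4⟩ := c_le hβ hh h2
        exact ⟨fun n => le_antisymm (a1 n) (b1 n), le_antisymm a2 b2, le_antisymm a3 b3,
          fun k hk => le_antisymm (a4 k hk) (b4 k hk)⟩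
  · rintro ⟨h1, h2, h3, h4⟩
    rcases isEmpty_or_nonempty X with hX | hX
    · have : α = β := PEquiv.ext (fun x => hX.elim x)
      rw [this]
      exact ⟨_, refl_mem _, _, refl_mem _, by simp, by simp⟩
    · obtain ⟨ψ, hψ1, hψ2⟩ := c_back α β (fun n => (h1 n).le) h2.le h3.le (fun k hk => (h4 k hk).le)
      obtain ⟨χ, hχ1, hχ2⟩ := c_back β α (fun n => (h1 n).ge) h2.ge h3.ge (fun k hk => (h4 k hk).ge)
      obtain ⟨g, hg1, hg2⟩ := c_assemble α β ψ hψ1 hψ2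
      obtain ⟨h, hh1, hh2⟩ := c_assemble β α χ hχ1 hχ2
      have hi : ∀ x ∈ im α 1, ∃ y, g x = some y := fun x hx => hg1 x (Or.inr (D_neg_one.2 hx))
      have hi' : ∀ x ∈ im β 1, ∃ y, h x = some y := fun x hx => hh1 x (Or.inr (D_neg_one.2 hx))
      by_cases hα : α = ⊥
      · have hβ := zero_of_zero hα hi' hh2
        rw [hα, hβ]
        exact ⟨_, refl_mem _, _, refl_mem _, by simp, by simp⟩
      · have hβ : β ≠ ⊥ := fun hβ => hα (zero_of_zero hβ hi hg2)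
        have key : ∀ (α g : X ≃. X), α ≠ ⊥ → (∀ x ∈ im α 1, ∃ y, g x = some y) → g ∈ PP1 α := by
          intro α g hα hi
          refine Or.inl ⟨fun h0 => absurd h0 hα, fun _ m hm hm0 => hm ?_⟩
          apply PEquiv.ext
          intro w
          rw [PEquiv.bot_apply]
          cases h5 : (m.trans α) w with
          | none => rfl
          | some x =>
            exfalso
            obtain ⟨z, -, hz⟩ := (PEquiv.trans_eq_some _ _ _ _).1 h5
            obtain ⟨y, hy⟩ := hi x (mem_im1.2 ⟨z, hz⟩)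
            have h6 : ((m.trans α).trans g) w = some y :=
              (PEquiv.trans_eq_some _ _ _ _).2 ⟨x, h5, hy⟩
            rw [hm0] at h6
            simp at h6
        exact ⟨g, key α g hα hi, h, key β h hβ hi', hg2, hh2⟩

theorem p_iff (α β : X ≃. X) : PConj α β ↔
    (∀ n, #(cyc α n) = #(cyc β n)) ∧ #(rray α) = #(rray β) ∧ #(lray α) = #(lray β) ∧
    ∀ s t, 1 ≤ s → s < t → #(seg α s t) ≤ #(seg β (s - 1) (t + 1)) ∧
      #(seg β s t) ≤ #(seg α (s - 1) (t + 1)) := by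
  constructor
  · rintro ⟨u, v, hα, hβ⟩
    obtain ⟨a1, a2, a3, a4⟩ := p_forw hα hβ
    obtain ⟨b1, b2, b3, b4⟩ := p_forw hβ hα
    exact ⟨fun n => le_antisymm (a1 n) (b1 n), le_antisymm a2 b2, le_antisymm a3 b3,
      fun s t hs ht => ⟨a4 s t hs ht, b4 s t hs ht⟩⟩
  · rintro ⟨h1, h2, h3, h4⟩
    rcases isEmpty_or_nonempty X with hX | hX
    · exact ⟨⊥, ⊥, PEquiv.ext (fun x => hX.elim x), PEquiv.ext (fun x => hX.elim x)⟩
    · obtain ⟨ψ, hψ1, hψ2⟩ := p_back α β (fun n => (h1 n).le) h2.le h3.le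
        (fun s t hs ht => (h4 s t hs ht).1)
      obtain ⟨χ, hχ1, hχ2⟩ := p_back β α (fun n => (h1 n).ge) h2.ge h3.ge
        (fun s t hs ht => (h4 s t hs ht).2)
      exact p_assemble α β ψ χ hψ1 hψ2 hχ1 hχ2

/-- Complete descriptions of c-conjugacy and p-conjugacy in `I(X)` for every set `X`. -/
theorem result (X : Type u) (α β : X ≃. X) :
    (CConj α β ↔
      (∀ n, #(cyc α n) = #(cyc β n)) ∧
      #(rray α) + #(cyc α 0) = #(rray β) + #(cyc β 0) ∧
      #(lray α) = #(lray β) ∧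
      ∀ k, 1 ≤ k → #(im α k \ dm α 1 : Set X) = #(im β k \ dm β 1 : Set X)) ∧
    (PConj α β ↔
      (∀ n, #(cyc α n) = #(cyc β n)) ∧ #(rray α) = #(rray β) ∧ #(lray α) = #(lray β) ∧
      ∀ s t, 1 ≤ s → s < t → #(seg α s t) ≤ #(seg β (s - 1) (t + 1)) ∧
        #(seg β s t) ≤ #(seg α (s - 1) (t + 1))) :=
  ⟨c_iff α β, p_iff α β⟩

end Pool.Agent.Results.MP_3f621b_al.Settled
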